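import Mathlib
import Pool.Agent.H42.Freg.Final

/-!
# The quotients by the diagonal and anti-diagonal entries of the commutator are F-regular

The definitions of tight closure and of F-regularity are in `Pool/Agent/H42/Freg/Defs.lean`.
-/

open MvPolynomial Pool.Agent.H42.Freg

namespace Pool.Agent.Results.MP_9e123e_ag.FRegularQuotients

/-- The polynomial ring `R = K[X, Y]` in the `2 n²` variables `x_ij` (`Sum.inl (i, j)`) and `y_ij`
(`Sum.inr (i, j)`). -/
abbrev R (K : Type*) [Field K] (n : ℕ) : Type _ :=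
  MvPolynomial ((Fin n × Fin n) ⊕ (Fin n × Fin n)) K

variable (K : Type*) [Field K] (n : ℕ)

/-- The matrix `X = (x_ij)`. -/
noncomputable def Xmat : Matrix (Fin n) (Fin n) (R K n) := Matrix.of fun i j => X (Sum.inl (i, j))

/-- The matrix `Y = (y_ij)`. -/
noncomputable def Ymat : Matrix (Fin n) (Fin n) (R K n) := Matrix.of fun i j => X (Sum.inr (i, j))

/-- The commutator matrix `C = XY - YX`. -/
noncomputable def C : Matrix (Fin n) (Fin n) (R K n) := Xmat K n * Ymat K n - Ymat K n * Xmat K n

/-- The ideal `I` of the diagonal entries of `C`. -/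
noncomputable def I : Ideal (R K n) := Ideal.span (Set.range fun i => C K n i i)

/-- The ideal `J` of the anti-diagonal entries of `C`. -/
noncomputable def J : Ideal (R K n) := Ideal.span (Set.range fun i => C K n i (Fin.rev i))

/-- For every `n ≥ 3` and every field `K` of characteristic `p > 0` the rings `R/(I + J)` and `R/J`
are F-regular domains. -/
theorem result : ∀ (n : ℕ), 3 ≤ n → ∀ (K : Type*) [Field K] (p : ℕ) [CharP K p], 0 < p →
    (IsDomain (R K n ⧸ (I K n ⊔ J K n)) ∧ FRegular p (R K n ⧸ (I K n ⊔ J K n))) ∧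
    (IsDomain (R K n ⧸ J K n) ∧ FRegular p (R K n ⧸ J K n)) := by
  intro n hn K _ p _ hp
  have hprime : p.Prime := CharP.char_prime_of_ne_zero K (by omega)
  have : Fact p.Prime := ⟨hprime⟩
  obtain ⟨h1, h2⟩ := good_main (K := K) p hn
  have d1 := h1.1
  have d2 := h2.1
  exact ⟨⟨h1.1, h1.2.fRegular hp⟩, ⟨h2.1, h2.2.fRegular hp⟩⟩

end Pool.Agent.Results.MP_9e123e_ag.FRegularQuotients
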